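import Pool.Agent.W48.PE.Main

/-!
# Multiplication by `e` if `π + e` or `π - e` is algebraic

A logarithm of an algebraic number is any complex `z` with `exp z` algebraic. `LogForms` is the
space of all linear combinations of `1` and of logarithms of algebraic numbers, with algebraic
coefficients. If `π + e` or `π - e` (or any `b π + c e` with `b`, `c` algebraic, `c ≠ 0`) is
algebraic, then multiplication by `e` takes an element of `LogForms` out of `LogForms`, except in at
most one direction.
-/

set_option autoImplicit false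

namespace Pool.Agent.Results.MP_363d4d_nt.ExceptionalDirection

open Pool.Agent.H301R2.SSE

/-- linear combinations, with algebraic coefficients, of `1` and of logarithms of algebraic
numbers -/
noncomputable def LogForms : Submodule (algebraicClosure ℚ ℂ) ℂ :=
  Submodule.span (algebraicClosure ℚ ℂ) ({1} ∪ {z : ℂ | IsAlgebraic ℚ (Complex.exp z)})

/-- Suppose that `b π + c e` is algebraic, for some algebraic `b` and `c ≠ 0`. Then there is one
complex number `y₀` such that every `y ∈ LogForms` with `e y ∈ LogForms` is `a + a' y₀` with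
algebraic `a`, `a'`; in particular there is one complex `l₀` such that every logarithm `l` of an
algebraic number with `e l ∈ LogForms` is a rational multiple of `l₀`. -/
theorem result (b c : ℂ) (hb : IsAlgebraic ℚ b) (hc : IsAlgebraic ℚ c) (hc0 : c ≠ 0)
    (h : IsAlgebraic ℚ (b * (Real.pi : ℂ) + c * Complex.exp 1)) :
    (∃ y₀ : ℂ, ∀ y ∈ LogForms, Complex.exp 1 * y ∈ LogForms →
      ∃ a a' : ℂ, IsAlgebraic ℚ a ∧ IsAlgebraic ℚ a' ∧ y = a + a' * y₀) ∧
    (∃ l₀ : ℂ, ∀ l : ℂ, IsAlgebraic ℚ (Complex.exp l) → Complex.exp 1 * l ∈ LogForms →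
      ∃ q : ℚ, l = q * l₀) := by
  have hle : LB ≤ Lt := Submodule.span_mono (fun x hx => Or.inr hx)
  have he : Complex.exp 1 ∈ Lt := by
    have e : Complex.exp 1 = c⁻¹ * (b * (Real.pi : ℂ) + c * Complex.exp 1) -
        (c⁻¹ * b) * (Real.pi : ℂ) := by
      field_simp
      ring
    rw [e]
    exact Lt.sub_mem (Lt_alg (hc.inv.mul h))
      (Lt_mul (hc.inv.mul hb) (hle Pool.Agent.W48.PE.LB_pi))
  exact ⟨Pool.Agent.W48.PE.structure_part he, Pool.Agent.W48.PE.log_part he⟩

end Pool.Agent.Results.MP_363d4d_nt.ExceptionalDirection
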