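import Pool.Agent.W242.TDF.Frac
import Pool.Agent.W242.TDF.RatF
import Pool.Agent.H462R2.PiE

/-!
# Families through `π + e` and `π - e`

`π + e`, `π - e` are the member `P = 1`, `y = 1` of the family `π ± e ^ (y P(π))` and the member
`n = 0` of the family `π ± e ^ (π ^ n)`.  If `π + e` or `π - e` is a rational number `r`, then
`P = r - X` or `P = r + X` is a member of the family `e ^ (i P(e))` with value `-1`.
-/

set_option autoImplicit false

namespace Pool.Agent.Results.MP_363d4d_nt.ExceptionalPolynomials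

open Polynomial Module
open Pool.Agent.W242.GG Pool.Agent.W242.TDF Pool.Agent.H301R2.SSE
open Pool.Agent.H462R2.PiE (alg_ofReal)

open Classical in
theorem result :
    -- `t = π` or `t = e`; `W` is a space of numbers `z` algebraic over `ℚ(t)` with `e ^ z`
    -- algebraic over `ℚ(t)`, and `X` is any space of complex numbers
    (∀ t : ℂ, t = Real.pi ∨ t = Complex.exp 1 → ∀ X W Y : Submodule ℚ ℂ,
      FiniteDimensional ℚ X → FiniteDimensional ℚ W → FiniteDimensional ℚ Y →
      (∀ x ∈ X, ∀ z ∈ W, x * z ∈ Y) → (∀ z ∈ W, ¬ AlgebraicIndependent ℚ ![t, z]) →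
      (∀ z ∈ W, ¬ AlgebraicIndependent ℚ ![t, Complex.exp z]) →
        finrank ℚ X * finrank ℚ W ≤ finrank ℚ Y + finrank ℚ X * (finrank ℚ X - 1)) ∧
    -- families of polynomials through `π + e` and `π - e`
    (∀ (y : ℂ) (n : ℕ), y ≠ 0 →
      (¬ AlgebraicIndependent ℚ ![(Real.pi : ℂ), y] →
        finrank ℚ (Submodule.span ℚ {P : ℚ[X] | P.natDegree ≤ n ∧
          ¬ (Transcendental ℚ (Real.pi + Complex.exp (y * aeval (Real.pi : ℂ) P)) ∧
            Transcendental ℚ (Real.pi - Complex.exp (y * aeval (Real.pi : ℂ) P)))}) ^ 2 ≤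
          4 * n + 1) ∧
      (finrank ℚ (Submodule.span ℚ {P : ℚ[X] | P.natDegree ≤ n ∧
        ¬ (Transcendental ℚ (Real.pi + Complex.exp (y * aeval (Real.pi : ℂ) P)) ∧
          Transcendental ℚ (Real.pi - Complex.exp (y * aeval (Real.pi : ℂ) P)))}) + 1) ^ 2 ≤
        8 * n + 4) ∧
    -- rational functions of degree at most `D`
    (∀ (y : ℂ) (N D : ℕ) (P Q : Fin N → ℚ[X]), y ≠ 0 → 1 ≤ D →
      (∀ i, (P i).natDegree ≤ D ∧ (Q i).natDegree ≤ D ∧ Q i ≠ 0) →
      LinearIndependent ℚ (fun i => aeval (Real.pi : ℂ) (P i) / aeval (Real.pi : ℂ) (Q i)) →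
      (∀ i, ¬ (Transcendental ℚ (Real.pi + Complex.exp (y * (aeval (Real.pi : ℂ) (P i) /
          aeval (Real.pi : ℂ) (Q i)))) ∧
        Transcendental ℚ (Real.pi - Complex.exp (y * (aeval (Real.pi : ℂ) (P i) /
          aeval (Real.pi : ℂ) (Q i)))))) →
        N ≤ 8 * D - 2 ∧ (¬ AlgebraicIndependent ℚ ![(Real.pi : ℂ), y] → N ≤ 4 * D)) ∧
    -- powers
    (∀ N : ℕ, ((Finset.range (N + 1)).filter (fun n : ℕ =>
      ¬ (Transcendental ℚ (Real.pi + Real.exp (Real.pi ^ n)) ∧
        Transcendental ℚ (Real.pi - Real.exp (Real.pi ^ n))))).card ^ 2 ≤ 4 * N + 1) ∧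
    -- a one parameter family
    {s : ℚ | ¬ (Transcendental ℚ (Real.pi + Real.exp (1 / (1 - s * Real.pi))) ∧
      Transcendental ℚ (Real.pi - Real.exp (1 / (1 - s * Real.pi))))}.encard ≤ 3 ∧
    -- the family `e ^ (y P(e))`, `y = i`
    (∀ (y : ℂ) (n : ℕ), y ≠ 0 →
      (¬ AlgebraicIndependent ℚ ![Complex.exp 1, y] →
        finrank ℚ (Submodule.span ℚ {P : ℚ[X] | P.natDegree ≤ n ∧
          ¬ AlgebraicIndependent ℚ ![Complex.exp 1, Complex.exp (y * aeval (Complex.exp 1) P)]}) ^ 2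
          ≤ 4 * n + 1) ∧
      (finrank ℚ (Submodule.span ℚ {P : ℚ[X] | P.natDegree ≤ n ∧
        ¬ AlgebraicIndependent ℚ ![Complex.exp 1, Complex.exp (y * aeval (Complex.exp 1) P)]}) + 1)
        ^ 2 ≤ 8 * n + 4) := by
  have hpi : Transcendental ℚ (Real.pi : ℂ) := piC_tr
  have htr : ∀ t : ℂ, t = Real.pi ∨ t = Complex.exp 1 → Transcendental ℚ t := by
    rintro t (rfl | rfl)
    · exact hpi
    · exact exp_one_tr
  have four : ∀ z : ℂ, ¬ (Transcendental ℚ ((Real.pi : ℂ) + z) ∧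
      Transcendental ℚ ((Real.pi : ℂ) - z)) →
      IsAlgebraic (IntermediateField.adjoin ℚ {(Real.pi : ℂ)}) z := by
    intro z hz
    refine dep_alg hpi (fun h4 => hz ?_)
    have := four_ops h4
    exact ⟨this.1, this.2.1⟩
  have fourR : ∀ x : ℝ, ¬ (Transcendental ℚ (Real.pi + x) ∧ Transcendental ℚ (Real.pi - x)) →
      IsAlgebraic (IntermediateField.adjoin ℚ {(Real.pi : ℂ)}) (x : ℂ) := by
    intro x hx
    refine four _ ?_
    rintro ⟨h1, h2⟩
    refine hx ⟨?_, ?_⟩
    · intro h3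
      have h4 := alg_ofReal h3
      exact h1 (by rwa [Complex.ofReal_add] at h4)
    · intro h3
      have h4 := alg_ofReal h3
      exact h2 (by rwa [Complex.ofReal_sub] at h4)
  refine ⟨?_, ?_, ?_, ?_, ?_, ?_⟩
  · intro t ht X W Y hX hW hY hXY hWt h
    have htt := htr t ht
    exact Pool.Agent.W243.TD.prod1 htt X W Y (fun z hz => dep_alg htt (hWt z hz))
      (fun z hz => dep_alg htt (h z hz)) hXY
  · intro y n hy
    refine ⟨fun hya => ?_, ?_⟩
    · refine span_sq hpi hy (dep_alg hpi hya) n _ ?_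
      rintro P ⟨h2, h3⟩
      exact ⟨h2, four _ h3⟩
    · refine span_sq2 hpi hy n _ ?_
      rintro P ⟨h2, h3⟩
      exact ⟨h2, four _ h3⟩
  · intro y N D P Q hy hD hPQ hli he
    have h := Pool.Agent.W243.TD.rat_list' hpi hy hD P Q (fun i => (hPQ i).1)
      (fun i => (hPQ i).2.1) (fun i => (hPQ i).2.2) hli (fun i => four _ (he i))
    exact ⟨h.1, fun hya => h.2 (dep_alg hpi hya)⟩
  · intro N
    refine count0 hpi one_ne_zero isAlgebraic_one N _ ?_
    intro n hn
    rw [Finset.mem_filter, Finset.mem_range] at hn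
    refine ⟨by omega, ?_⟩
    have h1 := fourR _ hn.2
    rw [one_mul]
    push_cast at h1
    exact h1
  · apply encard_le_nat _ 3
    intro S hS hmem
    have h1 := frac_three hpi (y := 1) one_ne_zero isAlgebraic_one S (by
      intro s hs
      have h1 := fourR _ (hmem s hs)
      push_cast at h1
      exact h1)
    omega
  · intro y n hy
    refine ⟨fun hya => ?_, ?_⟩
    · refine span_sq exp_one_tr hy (dep_alg exp_one_tr hya) n _ ?_
      rintro P ⟨h2, h3⟩
      exact ⟨h2, dep_alg exp_one_tr h3⟩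
    · refine span_sq2 exp_one_tr hy n _ ?_
      rintro P ⟨h2, h3⟩
      exact ⟨h2, dep_alg exp_one_tr h3⟩

end Pool.Agent.Results.MP_363d4d_nt.ExceptionalPolynomials
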