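import Pool.Agent.W48.PE.Main

/-!
# The numbers `λ n + e ^ n`

`LogForms` is the space of all linear combinations, with algebraic coefficients, of `1` and of
logarithms of algebraic numbers (such as `± π`). For every choice of `λ n ∈ LogForms`, almost all of
the numbers `λ n + e ^ n` are transcendental.
-/

set_option autoImplicit false

namespace Pool.Agent.Results.MP_363d4d_nt.LogFormPlusPowers

open Pool.Agent.H301R2.SSE

/-- linear combinations, with algebraic coefficients, of `1` and of logarithms of algebraic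
numbers -/
noncomputable def LogForms : Submodule (algebraicClosure ℚ ℂ) ℂ :=
  Submodule.span (algebraicClosure ℚ ℂ) ({1} ∪ {z : ℂ | IsAlgebraic ℚ (Complex.exp z)})

/-- For all `λ 1, λ 2, … ∈ LogForms` and every `N`, at most `2 √N + 1` of the numbers
`λ n + e ^ n`, `1 ≤ n ≤ N`, are algebraic. -/
theorem result (l : ℕ → ℂ) (hl : ∀ n, l n ∈ LogForms) (N : ℕ) :
    (Set.ncard {n : ℕ | 1 ≤ n ∧ n ≤ N ∧ IsAlgebraic ℚ (l n + Complex.exp 1 ^ n)} : ℝ) ≤
      2 * Real.sqrt N + 1 := by
  classical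
  have hfin : {n : ℕ | 1 ≤ n ∧ n ≤ N ∧ IsAlgebraic ℚ (l n + Complex.exp 1 ^ n)}.Finite :=
    (Set.finite_Icc 1 N).subset (fun n hn => ⟨hn.1, hn.2.1⟩)
  have hpow : ∀ n : ℕ, Complex.exp 1 ^ n = Complex.exp (n : ℂ) := by
    intro n
    rw [← Complex.exp_nat_mul]
    simp
  rw [Set.ncard_eq_toFinset_card _ hfin]
  refine Pool.Agent.W48.PE.card_bound N hfin.toFinset (fun n hn => ?_) ?_
  · rw [Set.Finite.mem_toFinset] at hn
    exact ⟨hn.1, hn.2.1⟩
  · intro n hn
    rw [Set.Finite.mem_toFinset] at hn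
    have e : Complex.exp (n : ℂ) = (l n + Complex.exp 1 ^ n) - l n := by rw [hpow]; ring
    rw [e]
    exact Lt.sub_mem (Lt_alg hn.2.2) (hl n)

end Pool.Agent.Results.MP_363d4d_nt.LogFormPlusPowers
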